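import Pool.Agent.Helper27.UC.Goals8
import Pool.Agent.Helper79.UC.FV

/-!
PROJECT UC part 6 (MP_d3128a_ag), packet UC-FQ: the final form of the repeated clause, explicit (helper95).
-/

set_option autoImplicit false

noncomputable section

namespace Pool.Agent.Helper95.UC.FQ

open Module Pool.Agent.Helper97.Tate Pool.Agent.Helper1.All

open Pool.Agent.Helper27.UC (gd rp S_ALLH S_TGQ S_GDG S_FQ)

open Pool.Agent.Helper79.UC.FV (gd_zero small)

theorem t (hF : S_ALLH) (hT' : S_TGQ) (hG : S_GDG) : S_FQ := by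
  classical
  intro n d m hcase
  apply hG
  obtain ⟨c, m', hc, hcard', hsum', hall⟩ := hcase
  obtain ⟨A, hAd⟩ : ∃ A, A = Finset.univ.filter (fun i => 2 ≤ m i) := ⟨_, rfl⟩
  obtain ⟨B, hBd⟩ : ∃ B, B = Finset.univ.filter (fun i => ¬ 2 ≤ m i) := ⟨_, rfl⟩
  rw [← hAd] at hsum' hcard' hall
  have hmA : ∀ i, i ∈ A ↔ 2 ≤ m i := by
    intro i
    rw [hAd]
    simp
  have hmulA : ∑ i ∈ A, ({m i} : Multiset ℕ) = A.val.map m := by
    have h1 : ∑ i ∈ A, ({m i} : Multiset ℕ) =
        (Multiset.map (fun i => ({m i} : Multiset ℕ)) A.val).sum := rfl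
    rw [h1]
    have h2 : Multiset.map (fun i => ({m i} : Multiset ℕ)) A.val =
        Multiset.map (fun x => ({x} : Multiset ℕ)) (Multiset.map m A.val) := by
      rw [Multiset.map_map]
      rfl
    rw [h2, Multiset.sum_map_singleton]
  have hAB : Multiset.map m Finset.univ.val =
      A.val.map m + ∑ i ∈ B, ({m i} : Multiset ℕ) := by
    rw [← hmulA, hAd, hBd, Finset.sum_filter_add_sum_filter_not]
    have h1 : ∑ i, ({m i} : Multiset ℕ) =
        (Multiset.map (fun i => ({m i} : Multiset ℕ)) Finset.univ.val).sum := rfl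
    rw [h1]
    have h2 : Multiset.map (fun i => ({m i} : Multiset ℕ)) Finset.univ.val =
        Multiset.map (fun x => ({x} : Multiset ℕ)) (Multiset.map m Finset.univ.val) := by
      rw [Multiset.map_map]
      rfl
    rw [h2, Multiset.sum_map_singleton]
  have hchoose : ∑ i, (m i + 1).choose 2 =
      ∑ i ∈ A, (m i + 1).choose 2 + ∑ i ∈ B, (m i + 1).choose 2 := by
    rw [hAd, hBd, Finset.sum_filter_add_sum_filter_not]
  have hB : ∀ i ∈ B, m i < 2 := by
    intro i hi
    rw [hBd] at hi
    have := (Finset.mem_filter.1 hi).2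
    omega
  -- the large multiplicities
  have key : gd d (A.val.map m) ≤ (d + 2).choose 2 - ∑ i ∈ A, (m i + 1).choose 2 := by
    rcases A.eq_empty_or_nonempty with hAe | ⟨i0, hi0⟩
    · rw [hAe]
      simpa using gd_zero d
    · obtain ⟨T, hT⟩ : ∃ T : Multiset (ℕ × ℕ), T = A.val.map (fun i => (m' i, m i)) := ⟨_, rfl⟩
      have hTs : T.map Prod.snd = A.val.map m := by
        rw [hT, Multiset.map_map]
        rfl
      have hTf : T.map Prod.fst = A.val.map m' := by
        rw [hT, Multiset.map_map]
        rfl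
      have hcount : ∀ x, (T.map Prod.fst).count x =
          (Finset.univ.filter (fun j => 2 ≤ m j ∧ m' j = x)).card := by
        intro x
        rw [hTf, Multiset.count_map, hAd]
        have h1 : (Finset.univ.filter (fun j => 2 ≤ m j ∧ m' j = x)) =
            (Finset.univ.filter (fun j => 2 ≤ m j)).filter (fun j => x = m' j) := by
          ext j
          simp only [Finset.mem_filter, Finset.mem_univ, true_and]
          exact ⟨fun h => ⟨h.1, h.2.symm⟩, fun h => ⟨h.1, h.2.symm⟩⟩
        rw [h1]
        rfl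
      have hTsum : (T.map fun p => p.1 * (p.1 - p.2)).sum = ∑ i ∈ A, m' i * (m' i - m i) := by
        rw [hT, Multiset.map_map]
        rfl
      have hTch : ((T.map Prod.snd).map fun v => (v + 1).choose 2).sum =
          ∑ i ∈ A, (m i + 1).choose 2 := by
        rw [hTs, Multiset.map_map]
        rfl
      have hTsq : ((T.map Prod.snd).map fun v => v ^ 2).sum = ∑ i ∈ A, m i ^ 2 := by
        rw [hTs, Multiset.map_map]
        rfl
      have hTm : (T.map Prod.snd).sum = ∑ i ∈ A, m i := by
        rw [hTs]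
        rfl
      have hpos : 0 < (T.map Prod.snd).sum := by
        rw [hTm]
        have h1 := Finset.single_le_sum (f := m) (fun i _ => Nat.zero_le (m i)) hi0
        have h2 := (hmA i0).1 hi0
        omega
      obtain ⟨g, P, hgP, hHF⟩ := hT' c _ _ T hc rfl rfl hpos (by
        intro p hp
        rw [hT] at hp
        obtain ⟨i, hi, rfl⟩ := Multiset.mem_map.1 hp
        have hi2 : 2 ≤ m i := (hmA i).1 hi
        obtain ⟨h1, h2, h3⟩ := hall i hi2
        rw [hTsq, hcount]
        exact ⟨hi2, h1, h2, h3⟩) (by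
        rw [hTf]
        exact hcard') (by
        rw [hTsum, hTm]
        exact hsum')
      have h := hF c _ _ d g P hHF
      rw [← hgP, hTch, hTs] at h
      exact h
  -- the end
  have hs := small d m (A.val.map m) B hB
  rw [← hAB] at hs
  have hfin : gd d (Multiset.map m Finset.univ.val) ≤
      (d + 2).choose 2 - ∑ i, (m i + 1).choose 2 := by
    rw [hchoose]
    omega
  unfold vdim
  have hcast : (∑ i, (Nat.choose (m i + 1) 2 : ℤ)) = ((∑ i, (m i + 1).choose 2 : ℕ) : ℤ) := by
    push_cast
    rfl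
  rw [hcast]
  rcases le_total (∑ i, (m i + 1).choose 2) ((d + 2).choose 2) with h | h
  · rw [← Nat.cast_sub h]
    exact le_trans (by exact_mod_cast hfin) (le_max_left _ _)
  · rw [Nat.sub_eq_zero_of_le h] at hfin
    exact le_trans (by exact_mod_cast hfin) (le_max_right _ _)

end Pool.Agent.Helper95.UC.FQ
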